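import Pool.Agent.T6.H35.BO.Sq

/-!
# Odd integers as an almost prime plus twice a square, with the root in an arc modulo one

`Reps n F c T z X` is the set of the `1 ≤ x ≤ X` for which the fractional part of `F (x)` is smaller
than `c` and for which `n - 2 x ^ 2` is a product of at most `T` primes larger than `z`.
`ManyReps a t C δ X F`: for all odd `n` with `2 X ^ 2 < n ≤ X ^ a` and all `X ^ (- δ) ≤ c ≤ 1` there are
at least `c X / (log X) ^ C` such `x`, with `T = a t` and `z = X ^ (1 / t)`.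
-/

set_option autoImplicit false

namespace Pool.Agent.Results.MP_6b8fc7_nt.TwiceSquareInArcs

open Polynomial
open Pool.Agent.T6.H35.BO (ManyReps)

theorem result (k : ℕ) (hk : 1 ≤ k) (τ : ℝ) (hτ : 1 ≤ τ) : ∃ t C : ℕ, 1 ≤ t ∧ ∃ δ : ℝ, 0 < δ ∧
    ∀ (a : ℕ) (c₀ : ℝ), 0 < c₀ → ∃ X₀ : ℕ, ∀ X : ℕ, X₀ ≤ X → ∀ F : ℝ[X], F.natDegree = k →
      (∀ d : ℕ, 1 ≤ d → ∀ b : ℤ, c₀ / (d : ℝ) ^ τ ≤ |d * F.leadingCoeff - b|) →
      ManyReps a t C δ X F :=
  Pool.Agent.T6.H35.BO.rep_type k hk τ hτ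

end Pool.Agent.Results.MP_6b8fc7_nt.TwiceSquareInArcs
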